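import Pool.Agent.H46.MW.Main
import Pool.Agent.H7.MM.Bound

/-!
# Densest weighted classes and the local bound
-/

set_option autoImplicit false

namespace Pool.Agent.H46.MW

open SimpleGraph Pool.Agent.H16.PC Pool.Agent.H7.MM

variable {V : Type*} [Fintype V] [DecidableEq V] {G : SimpleGraph V}

/-- `s0` has the largest weighted density. -/
def DnsW (G : SimpleGraph V) (w : V → ℝ) (s0 : St V) : Prop :=
  Gd G s0 ∧ 1 ≤ tot s0 ∧ ∀ s, Gd G s → 1 ≤ tot s →
    (tot s : ℝ) * wt w (ps G s0) ≤ tot s0 * wt w (ps G s)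

/-- Existence of a class of largest weighted density. -/
theorem exists_dnsW {w : V → ℝ} (hw : ∀ x, 0 < w x) {s : St V} (hs : Gd G s) (h1 : 1 ≤ tot s) :
    ∃ s0, DnsW G w s0 := by
  classical
  let N := 2 * Fintype.card V
  have hbt : ∀ s : St V, Gd G s → tot s ≤ N := by
    intro s hs
    unfold tot
    calc ∑ v, s.T v ≤ ∑ v : V, 2 := Finset.sum_le_sum (fun v _ => by have := hs.2 v; omega)
      _ = N := by simp [N, mul_comm]
  let P : Finset (ℕ × Finset V) :=
    ((Finset.range (N + 1)) ×ˢ (Finset.univ : Finset (Finset V))).filter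
    (fun q => ∃ s, Gd G s ∧ 1 ≤ tot s ∧ tot s = q.1 ∧ ps G s = q.2)
  have hmem : ∀ s : St V, Gd G s → 1 ≤ tot s → (tot s, ps G s) ∈ P := by
    intro s hs h1
    rw [Finset.mem_filter, Finset.mem_product, Finset.mem_range]
    refine ⟨⟨?_, Finset.mem_univ _⟩, s, hs, h1, rfl, rfl⟩
    have := hbt s hs
    show tot s < N + 1
    omega
  obtain ⟨q, hq, hmax⟩ := P.exists_max_image (fun q => (q.1 : ℝ) / wt w q.2) ⟨_, hmem s hs h1⟩
  rw [Finset.mem_filter] at hq
  obtain ⟨_, s0, hs0, ht0, hq1, hq2⟩ := hq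
  refine ⟨s0, hs0, ht0, ?_⟩
  intro s' hs' h1'
  have h2 := hmax _ (hmem s' hs' h1')
  simp only at h2
  rw [← hq1, ← hq2] at h2
  have h3 : 0 < wt w (ps G s') := wt_pos hw (Finset.card_pos.1 (ps_pos h1'))
  have h4 : 0 < wt w (ps G s0) := wt_pos hw (Finset.card_pos.1 (ps_pos ht0))
  rwa [div_le_div_iff₀ h3 h4] at h2

theorem dnsW_sub {w : V → ℝ} (hw : ∀ x, 0 < w x) {s0 : St V} (h0 : DnsW G w s0) :
    SubW G ((tot s0 : ℝ) / wt w (ps G s0)) w s0 := by
  intro s hs R hR
  have hg := rch_good h0.1 hs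
  have hg1 : Gd G ⟨s.F, R⟩ := sub_good hg hR
  have hx : 0 < wt w (ps G s0) := wt_pos hw (Finset.card_pos.1 (ps_pos h0.2.1))
  have htot : tot (⟨s.F, R⟩ : St V) = ∑ v, R v := rfl
  have hwn : 0 ≤ wt w (ps G ⟨s.F, R⟩) := wt_nonneg (fun x => (hw x).le) _
  by_cases h1 : 1 ≤ tot (⟨s.F, R⟩ : St V)
  · have h2 := h0.2.2 _ hg1 h1
    rw [div_mul_eq_mul_div, le_div_iff₀ hx, ← htot]
    exact h2
  · have h3 : ∑ v, R v = 0 := by omega
    rw [h3]
    have : (0 : ℝ) ≤ (tot s0 : ℝ) / wt w (ps G s0) := by positivity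
    push_cast
    positivity

/-- The weighted density of a densest class is at most one, if the weights are large enough. -/
theorem dnsW_bound {w : V → ℝ} (hw : ∀ x, 0 < w x)
    (hpt : ∀ (x : V) (B : Finset V), B ⊆ nb G x →
      2 * (1 - ∑ c ∈ B, (1 : ℝ) / (dg G c : ℝ)) ≤ w x * ((dg G x : ℝ) + 1 - (B.card : ℝ)))
    {s0 : St V} (h0 : DnsW G w s0) :
    (tot s0 : ℝ) ≤ wt w (ps G s0) := by
  classical
  have hw0 : ∀ x, 0 ≤ w x := fun x => (hw x).le
  have hg := h0.1
  have hne : (ps G s0).Nonempty := Finset.card_pos.1 (ps_pos h0.2.1)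
  have hx : 0 < wt w (ps G s0) := wt_pos hw hne
  set X := ps G s0 with hX
  set M : ℝ := (tot s0 : ℝ) / wt w X with hMdef
  have hM : 0 ≤ M := by positivity
  have hMx : M * wt w X = tot s0 := by
    rw [hMdef]
    field_simp
  have hsub : SubW G M w s0 := dnsW_sub hw h0
  have h2 : ∀ v ∈ X, M * wt w (nb G v ∩ X) ≤ 2 := by
    intro y hy
    obtain ⟨s, hs, R, j, hR, hj1, hj2, htot, hdisj, _⟩ := freeze hg hy
    have hps : ps G ⟨s.F, R⟩ ⊆ X := ps_sub hs hR
    have h6 : wt w (nb G y ∩ X) + wt w (ps G ⟨s.F, R⟩) ≤ wt w X := by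
      rw [← wt_union hdisj]
      exact wt_mono hw0 (Finset.union_subset Finset.inter_subset_right hps)
    have h4 := hsub s hs R hR
    have h5 : ((∑ v, R v : ℕ) : ℝ) + j = tot s0 := by exact_mod_cast htot
    have h7 := mul_le_mul_of_nonneg_left h6 hM
    rw [mul_add, hMx] at h7
    have h8 : (j : ℝ) ≤ 2 := by exact_mod_cast hj2
    linarith
  set Z := Finset.univ.filter (fun v => v ∉ X ∧ (nb s0.F v ∩ X).card = 1) with hZdef
  set A := Finset.univ.filter (fun v => v ∉ X ∧ 2 ≤ (nb s0.F v ∩ X).card) with hAdef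
  have hZX : Disjoint Z X := by
    rw [Finset.disjoint_left]
    intro v hv
    exact (Finset.mem_filter.1 hv).2.1
  have hmain := main_propW hM hw0 s0 hg hsub h2 Z hZX (fun c hc => (Finset.mem_filter.1 hc).2.2)
    (Fintype.card V) (fun x _ => Finset.card_le_univ _)
  rw [← hX, hMx, sub_self, zero_mul] at hmain
  have hAXZ : Disjoint (X ∪ Z) A := by
    rw [Finset.disjoint_left]
    intro v hv hv'
    rw [hAdef, Finset.mem_filter] at hv'
    rw [Finset.mem_union] at hv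
    rcases hv with hv | hv
    · exact hv'.2.1 hv
    · have := (Finset.mem_filter.1 hv).2.2
      omega
  -- the weighted sum of the `G`-degrees
  have hsG : ∑ v ∈ X ∪ Z, wt w (nb G v ∩ X) =
      ∑ x ∈ X, w x * ((dg G x : ℝ) - ((nb G x ∩ A).card : ℝ)) := by
    have h3 : ∑ v, wt w (nb G v ∩ X) = ∑ x ∈ X, w x * (dg G x : ℝ) := by
      rw [sum_wt_swap]
      apply Finset.sum_congr rfl
      intro x _
      rw [Finset.inter_univ]
      rfl
    have h4 : ∑ v, wt w (nb G v ∩ X) = ∑ v ∈ (X ∪ Z) ∪ A, wt w (nb G v ∩ X) := by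
      symm
      apply Finset.sum_subset (Finset.subset_univ _)
      intro v _ hv
      rw [Finset.mem_union, Finset.mem_union, not_or, not_or] at hv
      have h5 : (nb G v ∩ X).card = 0 := by
        apply zero_of_zero hg hv.1.1
        by_contra hne0
        have hne1 : (nb s0.F v ∩ X).card ≠ 0 := hne0
        rcases Nat.lt_or_ge 1 (nb s0.F v ∩ X).card with h5 | h5
        · exact hv.2 (Finset.mem_filter.2 ⟨Finset.mem_univ _, hv.1.1, h5⟩)
        · exact hv.1.2 (Finset.mem_filter.2 ⟨Finset.mem_univ _, hv.1.1, by omega⟩)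
      rw [Finset.card_eq_zero.1 h5]
      simp [wt]
    rw [h4, Finset.sum_union hAXZ] at h3
    have h5 : ∑ v ∈ A, wt w (nb G v ∩ X) = ∑ x ∈ X, w x * ((nb G x ∩ A).card : ℝ) :=
      sum_wt_swap G w A X
    rw [h5] at h3
    have h6 : ∑ x ∈ X, w x * ((dg G x : ℝ) - ((nb G x ∩ A).card : ℝ)) =
        ∑ x ∈ X, w x * (dg G x : ℝ) - ∑ x ∈ X, w x * ((nb G x ∩ A).card : ℝ) := by
      rw [← Finset.sum_sub_distrib]
      apply Finset.sum_congr rfl
      intro x _
      ring
    rw [h6]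
    linarith
  -- the sum of the `F`-degrees
  have hsF : ∑ v ∈ X ∪ Z, (nb s0.F v ∩ X).card + 2 * A.card + tot s0 ≤ 2 * X.card := by
    have h3 : ∑ v ∈ (X ∪ Z) ∪ A, (nb s0.F v ∩ X).card ≤ ∑ x ∈ X, dg s0.F x := by
      rw [← sum_inter_card]
      exact Finset.sum_le_sum_of_subset (Finset.subset_univ _)
    rw [Finset.sum_union hAXZ] at h3
    have h4 : 2 * A.card ≤ ∑ v ∈ A, (nb s0.F v ∩ X).card := by
      rw [mul_comm, ← smul_eq_mul]
      apply Finset.card_nsmul_le_sum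
      intro v hv
      exact (Finset.mem_filter.1 hv).2.2
    have h5 : ∑ x ∈ X, dg s0.F x + tot s0 ≤ 2 * X.card := by
      have h6 : tot s0 = ∑ x ∈ X, s0.T x := by
        unfold tot
        symm
        apply Finset.sum_subset (Finset.subset_univ _)
        intro v _ hv
        by_contra hne
        exact hv (mem_ps.2 ⟨s0, Relation.ReflTransGen.refl, Nat.one_le_iff_ne_zero.2 hne⟩)
      rw [h6, ← Finset.sum_add_distrib, mul_comm, ← smul_eq_mul]
      apply Finset.sum_le_card_nsmul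
      intro x _
      have := hg.2 x
      omega
    omega
  -- the vertices of `A` pay `1/degree` to each neighbour in `X`
  have hA : ∑ x ∈ X, wt (fun c => (1 : ℝ) / (dg G c : ℝ)) (nb G x ∩ A) ≤ (A.card : ℝ) := by
    rw [sum_wt_swap]
    have h3 : ∀ c ∈ A, (1 : ℝ) / (dg G c : ℝ) * ((nb G c ∩ X).card : ℝ) ≤ 1 := by
      intro c _
      have h4 : ((nb G c ∩ X).card : ℝ) ≤ (dg G c : ℝ) := by
        exact_mod_cast Finset.card_le_card (Finset.inter_subset_left : nb G c ∩ X ⊆ nb G c)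
      by_cases h5 : (dg G c : ℝ) = 0
      · rw [h5]
        norm_num
      · have h6 : (0 : ℝ) < (dg G c : ℝ) := lt_of_le_of_ne (Nat.cast_nonneg _) (Ne.symm h5)
        rw [div_mul_eq_mul_div, one_mul, div_le_one h6]
        exact h4
    calc ∑ c ∈ A, (1 : ℝ) / (dg G c : ℝ) * ((nb G c ∩ X).card : ℝ) ≤ ∑ c ∈ A, (1 : ℝ) :=
          Finset.sum_le_sum h3
      _ = (A.card : ℝ) := by simp
  -- conclusion
  have h9 : psiW G s0.F M w X Z =
      M * (∑ v ∈ X ∪ Z, wt w (nb G v ∩ X)) -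
        ((∑ v ∈ X ∪ Z, (nb s0.F v ∩ X).card : ℕ) : ℝ) := by
    unfold psiW
    rw [Finset.sum_sub_distrib, ← Finset.mul_sum, Nat.cast_sum]
  rw [h9, hsG] at hmain
  have hF' : ((∑ v ∈ X ∪ Z, (nb s0.F v ∩ X).card : ℕ) : ℝ) + 2 * (A.card : ℝ) + (tot s0 : ℝ) ≤
      2 * (X.card : ℝ) := by exact_mod_cast hsF
  set S : ℝ := ∑ x ∈ X, w x * ((dg G x : ℝ) + 1 - ((nb G x ∩ A).card : ℝ)) with hSdef
  have hS1 : S = ∑ x ∈ X, w x * ((dg G x : ℝ) - ((nb G x ∩ A).card : ℝ)) + wt w X := by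
    rw [hSdef]
    unfold wt
    rw [← Finset.sum_add_distrib]
    apply Finset.sum_congr rfl
    intro x _
    ring
  have hS2 : ∑ x ∈ X, 2 * (1 - wt (fun c => (1 : ℝ) / (dg G c : ℝ)) (nb G x ∩ A)) ≤ S := by
    rw [hSdef]
    apply Finset.sum_le_sum
    intro x _
    exact hpt x (nb G x ∩ A) Finset.inter_subset_left
  have hS3 : 2 * (X.card : ℝ) - 2 * (A.card : ℝ) ≤
      ∑ x ∈ X, 2 * (1 - wt (fun c => (1 : ℝ) / (dg G c : ℝ)) (nb G x ∩ A)) := by
    rw [← Finset.mul_sum, Finset.sum_sub_distrib]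
    simp only [Finset.sum_const, nsmul_eq_mul, mul_one]
    linarith
  have hSpos : 0 < S := by
    rw [hSdef]
    apply Finset.sum_pos _ hne
    intro x _
    apply mul_pos (hw x)
    have h4 : ((nb G x ∩ A).card : ℝ) ≤ (dg G x : ℝ) := by
      exact_mod_cast Finset.card_le_card (Finset.inter_subset_left : nb G x ∩ A ⊆ nb G x)
    linarith
  have hMS : M * S ≤ S := by
    rw [hS1, mul_add, hMx, ← hS1]
    linarith
  have hM1 : M ≤ 1 := by
    by_contra hcon
    push Not at hcon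
    have := mul_lt_mul_of_pos_right hcon hSpos
    linarith
  rw [← hMx]
  calc M * wt w X ≤ 1 * wt w X := mul_le_mul_of_nonneg_right hM1 hx.le
    _ = wt w X := one_mul _

/-- **The local bound**: a linear forest missing at most the total weight. -/
theorem main_boundW {w : V → ℝ}
    (hpt : ∀ (x : V) (B : Finset V), B ⊆ nb G x →
      2 * (1 - ∑ c ∈ B, (1 : ℝ) / (dg G c : ℝ)) ≤ w x * ((dg G x : ℝ) + 1 - (B.card : ℝ))) :
    ∃ F, LF G F ∧ 2 * (Fintype.card V : ℝ) ≤ (TD F : ℝ) + ∑ x, w x := by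
  classical
  have hw : ∀ x, 0 < w x := by
    intro x
    have h1 := hpt x ∅ (Finset.empty_subset _)
    simp only [Finset.sum_empty, Finset.card_empty, Nat.cast_zero, sub_zero, mul_one] at h1
    by_contra hcon
    push Not at hcon
    have h2 : w x * ((dg G x : ℝ) + 1) ≤ 0 :=
      mul_nonpos_of_nonpos_of_nonneg hcon (by positivity)
    linarith
  obtain ⟨F, hF⟩ := exists_maxF G
  refine ⟨F, hF.1, ?_⟩
  let s : St V := ⟨F, fun v => 2 - dg F v⟩
  have hs : Gd G s := by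
    refine ⟨hF, ?_⟩
    intro v
    have := hF.1.2.2 v
    show (2 - dg F v) + dg F v ≤ 2
    omega
  have htot : tot s + TD F = 2 * Fintype.card V := by
    have h1 : tot s = ∑ v, (2 - dg F v) := rfl
    rw [h1]
    unfold TD
    rw [← Finset.sum_add_distrib, Finset.sum_congr rfl (g := fun _ => 2)]
    · simp [mul_comm]
    · intro v _
      have := hF.1.2.2 v
      omega
  have htotR : (tot s : ℝ) + (TD F : ℝ) = 2 * (Fintype.card V : ℝ) := by exact_mod_cast htot
  have hall : wt w (ps G s) ≤ ∑ x, w x :=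
    wt_mono (fun x => (hw x).le) (Finset.subset_univ _)
  by_cases h1 : 1 ≤ tot s
  · obtain ⟨s0, h0⟩ := exists_dnsW hw hs h1
    have h2 := dnsW_bound hw hpt h0
    have h3 := h0.2.2 s hs h1
    have h6 : 0 < wt w (ps G s0) := wt_pos hw (Finset.card_pos.1 (ps_pos h0.2.1))
    have hn : 0 ≤ wt w (ps G s) := wt_nonneg (fun x => (hw x).le) _
    have h7 : (tot s : ℝ) * wt w (ps G s0) ≤ wt w (ps G s) * wt w (ps G s0) := by
      calc (tot s : ℝ) * wt w (ps G s0) ≤ tot s0 * wt w (ps G s) := h3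
        _ ≤ wt w (ps G s0) * wt w (ps G s) := mul_le_mul_of_nonneg_right h2 hn
        _ = wt w (ps G s) * wt w (ps G s0) := mul_comm _ _
    have h8 := le_of_mul_le_mul_right h7 h6
    linarith
  · have h2 : tot s = 0 := by omega
    rw [h2] at htotR
    have h3 : 0 ≤ ∑ x, w x := Finset.sum_nonneg (fun x _ => (hw x).le)
    push_cast at htotR
    linarith

end Pool.Agent.H46.MW
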