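import Pool.Agent.H7.MM.Count

/-!
# Weighted double counting step (weights `w : V → ℝ` on the positions)
-/

set_option autoImplicit false

namespace Pool.Agent.H46.MW

open SimpleGraph Pool.Agent.H16.PC Pool.Agent.H7.MM

variable {V : Type*} [Fintype V] [DecidableEq V]

/-- The total weight of a set. -/
noncomputable def wt (w : V → ℝ) (A : Finset V) : ℝ := ∑ x ∈ A, w x

theorem wt_mono {w : V → ℝ} (hw : ∀ x, 0 ≤ w x) {A B : Finset V} (h : A ⊆ B) :
    wt w A ≤ wt w B :=
  Finset.sum_le_sum_of_subset_of_nonneg h (fun x _ _ => hw x)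

theorem wt_nonneg {w : V → ℝ} (hw : ∀ x, 0 ≤ w x) (A : Finset V) : 0 ≤ wt w A :=
  Finset.sum_nonneg (fun x _ => hw x)

theorem wt_pos {w : V → ℝ} (hw : ∀ x, 0 < w x) {A : Finset V} (hA : A.Nonempty) :
    0 < wt w A :=
  Finset.sum_pos (fun x _ => hw x) hA

theorem wt_union {w : V → ℝ} {A B : Finset V} (h : Disjoint A B) :
    wt w (A ∪ B) = wt w A + wt w B := Finset.sum_union h

/-- `psiW G F M w X Z = sum over v in X u Z of (M w(N_G(v) n X) - |N_F(v) n X|)`. -/
noncomputable def psiW (G F : SimpleGraph V) (M : ℝ) (w : V → ℝ) (X Z : Finset V) : ℝ :=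
  ∑ v ∈ X ∪ Z, (M * wt w (nb G v ∩ X) - ((nb F v ∩ X).card : ℝ))

theorem sum_wt_swap (G : SimpleGraph V) (w : V → ℝ) (A B : Finset V) :
    ∑ y ∈ A, wt w (nb G y ∩ B) = ∑ x ∈ B, w x * ((nb G x ∩ A).card : ℝ) := by
  classical
  have h1 : ∀ y, wt w (nb G y ∩ B) = ∑ x ∈ B, if G.Adj y x then w x else 0 := by
    intro y
    unfold wt
    rw [Finset.inter_comm, ← Finset.filter_mem_eq_inter, Finset.sum_filter]
    apply Finset.sum_congr rfl
    intro x _
    simp only [mem_nb]
  have h2 : ∀ x, w x * ((nb G x ∩ A).card : ℝ) = ∑ y ∈ A, if G.Adj y x then w x else 0 := by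
    intro x
    have h3 : ((nb G x ∩ A).card : ℝ) = ∑ y ∈ A, if G.Adj y x then (1 : ℝ) else 0 := by
      rw [Finset.card_eq_sum_ones, Finset.inter_comm, ← Finset.filter_mem_eq_inter,
        Finset.sum_filter]
      push_cast
      apply Finset.sum_congr rfl
      intro y _
      simp only [mem_nb, G.adj_comm]
    rw [h3, Finset.mul_sum]
    apply Finset.sum_congr rfl
    intro y _
    split_ifs <;> simp
  simp_rw [h1, h2]
  rw [Finset.sum_comm]

theorem countW {G F : SimpleGraph V} {M t : ℝ} {w : V → ℝ} (hw : ∀ x, 0 ≤ w x) (hM : 0 ≤ M)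
    {D j : ℕ} {X X' Z : Finset V}
    (hX' : X' ⊆ X) (hZX : Disjoint Z X)
    (IH : psiW G F M w X' (((X \ X') ∪ Z).filter (fun v => (nb F v ∩ X').card = 1)) ≤
      (M * wt w X' - (t - j)) * D)
    (h0 : ∀ v ∈ (X \ X') ∪ Z, (nb F v ∩ X').card = 0 → (nb G v ∩ X').card = 0)
    (h2 : ∀ v ∈ (X \ X') ∪ Z, 2 ≤ (nb F v ∩ X').card →
      M * wt w (nb G v ∩ X') ≤ ((nb F v ∩ X').card : ℝ))
    (hD : ∀ x ∈ X, (nb G x ∩ (X ∪ Z)).card ≤ D)
    (hW : j * D ≤ ∑ x ∈ X \ X', (nb F x ∩ (X ∪ Z)).card) :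
    psiW G F M w X Z ≤ (M * wt w X - t) * D := by
  classical
  set W := X \ X' with hWdef
  set A := W ∪ Z with hA
  have hdisj : Disjoint X' A := by
    rw [hA, Finset.disjoint_union_right]
    exact ⟨Finset.disjoint_sdiff, (hZX.mono_right hX').symm⟩
  have hXZ : X ∪ Z = X' ∪ A := by
    rw [hA, ← Finset.union_assoc, hWdef, Finset.union_sdiff_of_subset hX']
  have hdW : ∀ (H : SimpleGraph V) (v : V), Disjoint (nb H v ∩ X') (nb H v ∩ W) := by
    intro H v
    have : Disjoint X' W := Finset.disjoint_sdiff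
    exact this.mono Finset.inter_subset_right Finset.inter_subset_right
  have hu : ∀ (H : SimpleGraph V) (v : V), nb H v ∩ X = (nb H v ∩ X') ∪ (nb H v ∩ W) := by
    intro H v
    rw [← Finset.inter_union_distrib_left, hWdef, Finset.union_sdiff_of_subset hX']
  have hsplit : ∀ (H : SimpleGraph V) (v : V),
      ((nb H v ∩ X).card : ℝ) = ((nb H v ∩ X').card : ℝ) + ((nb H v ∩ W).card : ℝ) := by
    intro H v
    rw [hu H v, Finset.card_union_of_disjoint (hdW H v)]
    push_cast
    ring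
  have hsplitw : ∀ (H : SimpleGraph V) (v : V),
      wt w (nb H v ∩ X) = wt w (nb H v ∩ X') + wt w (nb H v ∩ W) := by
    intro H v
    rw [hu H v, wt_union (hdW H v)]
  have hpsi : psiW G F M w X Z =
      ∑ v ∈ X ∪ Z, (M * wt w (nb G v ∩ X') - ((nb F v ∩ X').card : ℝ)) +
      ∑ v ∈ X ∪ Z, (M * wt w (nb G v ∩ W) - ((nb F v ∩ W).card : ℝ)) := by
    unfold psiW
    rw [← Finset.sum_add_distrib]
    apply Finset.sum_congr rfl
    intro v _
    rw [hsplitw G v, hsplit F v]
    ring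
  -- the first sum
  have hfirst : ∑ v ∈ X ∪ Z, (M * wt w (nb G v ∩ X') - ((nb F v ∩ X').card : ℝ)) ≤
      (M * wt w X' - (t - j)) * D := by
    refine le_trans ?_ IH
    unfold psiW
    rw [hXZ, Finset.sum_union hdisj]
    have hd2 : Disjoint X' (A.filter (fun v => (nb F v ∩ X').card = 1)) :=
      hdisj.mono_right (Finset.filter_subset _ _)
    rw [Finset.sum_union hd2]
    rw [← Finset.sum_filter_add_sum_filter_not A (fun v => (nb F v ∩ X').card = 1)]
    have hneg : ∑ v ∈ A.filter (fun v => ¬ (nb F v ∩ X').card = 1),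
        (M * wt w (nb G v ∩ X') - ((nb F v ∩ X').card : ℝ)) ≤ 0 := by
      apply Finset.sum_nonpos
      intro v hv
      rw [Finset.mem_filter] at hv
      rcases Nat.lt_or_ge 1 (nb F v ∩ X').card with h | h
      · have := h2 v hv.1 h
        linarith
      · have hz : (nb F v ∩ X').card = 0 := by omega
        have h3 : nb G v ∩ X' = ∅ := Finset.card_eq_zero.1 (h0 v hv.1 hz)
        rw [h3, hz]
        simp [wt]
    linarith
  -- the second sum
  have hsecond : ∑ v ∈ X ∪ Z, (M * wt w (nb G v ∩ W) - ((nb F v ∩ W).card : ℝ)) ≤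
      M * (wt w W * D) - j * D := by
    rw [Finset.sum_sub_distrib, ← Finset.mul_sum]
    have hG : ∑ v ∈ X ∪ Z, wt w (nb G v ∩ W) ≤ wt w W * D := by
      rw [sum_wt_swap]
      unfold wt
      rw [Finset.sum_mul]
      apply Finset.sum_le_sum
      intro x hx
      apply mul_le_mul_of_nonneg_left _ (hw x)
      exact_mod_cast hD x (Finset.mem_sdiff.1 hx).1
    have hF : ((j * D : ℕ) : ℝ) ≤ ∑ v ∈ X ∪ Z, ((nb F v ∩ W).card : ℝ) := by
      have h1 : j * D ≤ ∑ v ∈ X ∪ Z, (nb F v ∩ W).card := by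
        rw [sum_inter_swap]
        exact hW
      exact_mod_cast h1
    push_cast at hF
    have := mul_le_mul_of_nonneg_left hG hM
    linarith
  have hcard : wt w X = wt w X' + wt w W := by
    have h3 : Disjoint X' W := Finset.disjoint_sdiff
    rw [← wt_union h3]
    congr 1
    rw [hWdef]
    exact (Finset.union_sdiff_of_subset hX').symm
  rw [hpsi, hcard]
  calc _ ≤ (M * wt w X' - (t - j)) * D + (M * (wt w W * D) - j * D) :=
        add_le_add hfirst hsecond
    _ = _ := by ring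

end Pool.Agent.H46.MW
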