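import Pool.Agent.H7.MM.Final

/-!
# The case of equality in the bound for regular graphs
-/

set_option autoImplicit false

namespace Pool.Agent.H46.MW

open SimpleGraph Pool.Agent.H16.PC Pool.Agent.H7.MM

variable {V : Type*} [Fintype V] [DecidableEq V] {G : SimpleGraph V}

/-- All classes of a `d`-regular graph have density at most `2/(d+1)`. -/
theorem dens_le {d : ℕ} (hd : ∀ v, dg G v = d) {s : St V} (hs : Gd G s) :
    (d + 1) * tot s ≤ 2 * (ps G s).card := by
  by_cases h1 : 1 ≤ tot s
  · obtain ⟨s0, h0⟩ := exists_dns hs h1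
    have h2 := dns_bound hd h0
    have h3 := h0.2.2 s hs h1
    have h6 : 0 < (ps G s0).card := ps_pos h0.2.1
    have h8 : (d + 1) * tot s * (ps G s0).card ≤ 2 * (ps G s).card * (ps G s0).card := by
      calc (d + 1) * tot s * (ps G s0).card
          = (d + 1) * (tot s * (ps G s0).card) := by ring
        _ ≤ (d + 1) * (tot s0 * (ps G s).card) := Nat.mul_le_mul_left _ h3
        _ = ((d + 1) * tot s0) * (ps G s).card := by ring
        _ ≤ (2 * (ps G s0).card) * (ps G s).card := Nat.mul_le_mul_right _ h2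
        _ = 2 * (ps G s).card * (ps G s0).card := by ring
    exact Nat.le_of_mul_le_mul_right h8 h6
  · have h2 : tot s = 0 := by omega
    rw [h2]
    omega

/-- For a class of density exactly `2/(d+1)`, no vertex outside the set of positions has two
`F`-neighbours in it. -/
theorem no_two {d : ℕ} (hd : ∀ v, dg G v = d) {s : St V} (hg : Gd G s)
    (he : (d + 1) * tot s = 2 * (ps G s).card) {v : V} (hv : v ∉ ps G s) :
    (nb s.F v ∩ ps G s).card ≤ 1 := by
  classical
  set X := ps G s with hX
  have hd1 : (0 : ℝ) < (d : ℝ) + 1 := by positivity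
  set M : ℝ := 2 / ((d : ℝ) + 1) with hMdef
  have hM : 0 ≤ M := by positivity
  have hMd : M * ((d : ℝ) + 1) = 2 := by
    rw [hMdef]
    field_simp
  have heR : ((d : ℝ) + 1) * (tot s : ℝ) = 2 * (X.card : ℝ) := by exact_mod_cast he
  have hMx : M * (X.card : ℝ) = tot s := by
    rw [hMdef, div_mul_eq_mul_div, ← heR]
    field_simp
  have hsub : Sub G M s := by
    intro s' hs' R hR
    have hg1 : Gd G ⟨s'.F, R⟩ := sub_good (rch_good hg hs') hR
    have h1 := dens_le hd hg1
    have h2 : ((d : ℝ) + 1) * ((∑ v, R v : ℕ) : ℝ) ≤ 2 * ((ps G ⟨s'.F, R⟩).card : ℝ) := by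
      exact_mod_cast h1
    rw [hMdef, div_mul_eq_mul_div, le_div_iff₀ hd1]
    linarith
  have h2 : ∀ u ∈ X, M * ((nb G u ∩ X).card : ℝ) ≤ 2 := by
    intro u _
    have h3 : ((nb G u ∩ X).card : ℝ) ≤ (d : ℝ) + 1 := by
      have h4 : (nb G u ∩ X).card ≤ d := by
        rw [← hd u]
        exact Finset.card_le_card Finset.inter_subset_left
      have h5 : ((nb G u ∩ X).card : ℝ) ≤ (d : ℝ) := by exact_mod_cast h4
      linarith
    have := mul_le_mul_of_nonneg_left h3 hM
    linarith
  set Z := Finset.univ.filter (fun v => v ∉ X ∧ (nb s.F v ∩ X).card = 1) with hZdef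
  set A := Finset.univ.filter (fun v => v ∉ X ∧ 2 ≤ (nb s.F v ∩ X).card) with hAdef
  have hZX : Disjoint Z X := by
    rw [Finset.disjoint_left]
    intro v hv
    exact (Finset.mem_filter.1 hv).2.1
  have hmain := main_prop hM s hg hsub h2 Z hZX (fun c hc => (Finset.mem_filter.1 hc).2.2)
    (Fintype.card V) (fun x _ => Finset.card_le_univ _)
  rw [← hX, hMx, sub_self, zero_mul] at hmain
  have hAXZ : Disjoint (X ∪ Z) A := by
    rw [Finset.disjoint_left]
    intro v hv hv'
    rw [hAdef, Finset.mem_filter] at hv'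
    rw [Finset.mem_union] at hv
    rcases hv with hv | hv
    · exact hv'.2.1 hv
    · have := (Finset.mem_filter.1 hv).2.2
      omega
  have hsG : ∑ v ∈ X ∪ Z, (nb G v ∩ X).card + d * A.card ≥ d * X.card := by
    have h3 : ∑ v, (nb G v ∩ X).card = d * X.card := by
      rw [sum_inter_card, Finset.sum_congr rfl (fun x _ => hd x), Finset.sum_const, smul_eq_mul,
        mul_comm]
    rw [← h3]
    have h4 : ∑ v, (nb G v ∩ X).card = ∑ v ∈ (X ∪ Z) ∪ A, (nb G v ∩ X).card := by
      symm
      apply Finset.sum_subset (Finset.subset_univ _)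
      intro v _ hv
      rw [Finset.mem_union, Finset.mem_union, not_or, not_or] at hv
      apply zero_of_zero hg hv.1.1
      by_contra hne0
      have hne1 : (nb s.F v ∩ X).card ≠ 0 := hne0
      rcases Nat.lt_or_ge 1 (nb s.F v ∩ X).card with h5 | h5
      · exact hv.2 (Finset.mem_filter.2 ⟨Finset.mem_univ _, hv.1.1, h5⟩)
      · exact hv.1.2 (Finset.mem_filter.2 ⟨Finset.mem_univ _, hv.1.1, by omega⟩)
    rw [h4, Finset.sum_union hAXZ]
    apply Nat.add_le_add_left
    rw [mul_comm, ← smul_eq_mul]
    apply Finset.sum_le_card_nsmul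
    intro v _
    rw [← hd v]
    exact Finset.card_le_card Finset.inter_subset_left
  have hsF : ∑ v ∈ X ∪ Z, (nb s.F v ∩ X).card + 2 * A.card + tot s ≤ 2 * X.card := by
    have h3 : ∑ v ∈ (X ∪ Z) ∪ A, (nb s.F v ∩ X).card ≤ ∑ x ∈ X, dg s.F x := by
      rw [← sum_inter_card]
      exact Finset.sum_le_sum_of_subset (Finset.subset_univ _)
    rw [Finset.sum_union hAXZ] at h3
    have h4 : 2 * A.card ≤ ∑ v ∈ A, (nb s.F v ∩ X).card := by
      rw [mul_comm, ← smul_eq_mul]
      apply Finset.card_nsmul_le_sum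
      intro v hv
      exact (Finset.mem_filter.1 hv).2.2
    have h5 : ∑ x ∈ X, dg s.F x + tot s ≤ 2 * X.card := by
      have h6 : tot s = ∑ x ∈ X, s.T x := by
        unfold tot
        symm
        apply Finset.sum_subset (Finset.subset_univ _)
        intro v _ hv
        by_contra hne
        exact hv (mem_ps.2 ⟨s, Relation.ReflTransGen.refl, Nat.one_le_iff_ne_zero.2 hne⟩)
      rw [h6, ← Finset.sum_add_distrib, mul_comm, ← smul_eq_mul]
      apply Finset.sum_le_card_nsmul
      intro x _
      have := hg.2 x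
      omega
    omega
  have h9 : psi G s.F M X Z =
      M * ((∑ v ∈ X ∪ Z, (nb G v ∩ X).card : ℕ) : ℝ) -
        ((∑ v ∈ X ∪ Z, (nb s.F v ∩ X).card : ℕ) : ℝ) := by
    unfold psi
    rw [Finset.sum_sub_distrib, ← Finset.mul_sum, Nat.cast_sum, Nat.cast_sum]
  rw [h9] at hmain
  set SG : ℕ := ∑ v ∈ X ∪ Z, (nb G v ∩ X).card
  set SF : ℕ := ∑ v ∈ X ∪ Z, (nb s.F v ∩ X).card
  have hG' : (d : ℝ) * (X.card : ℝ) ≤ (SG : ℝ) + d * (A.card : ℝ) := by exact_mod_cast hsG
  have hF' : (SF : ℝ) + 2 * (A.card : ℝ) + (tot s : ℝ) ≤ 2 * (X.card : ℝ) := by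
    exact_mod_cast hsF
  have h10 := mul_le_mul_of_nonneg_left hG' hM
  -- `M d |X| ≤ M SG + M d |A|`, `M SG ≤ SF ≤ 2|X| - 2|A| - M|X|`
  have hcard : (A.card : ℝ) ≤ 0 := by
    have h11 : M * ((d : ℝ) * (X.card : ℝ)) = 2 * (X.card : ℝ) - tot s := by
      have : M * ((d : ℝ) + 1) * (X.card : ℝ) = 2 * (X.card : ℝ) := by rw [hMd]
      have h12 : M * ((d : ℝ) + 1) * (X.card : ℝ) =
          M * ((d : ℝ) * (X.card : ℝ)) + M * (X.card : ℝ) := by ring
      rw [hMx] at h12
      linarith
    have h13 : M * ((d : ℝ) * (A.card : ℝ)) = (2 - M) * (A.card : ℝ) := by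
      have : M * ((d : ℝ) + 1) * (A.card : ℝ) = 2 * (A.card : ℝ) := by rw [hMd]
      have h12 : M * ((d : ℝ) + 1) * (A.card : ℝ) =
          M * ((d : ℝ) * (A.card : ℝ)) + M * (A.card : ℝ) := by ring
      linarith
    rw [mul_add, h11, h13] at h10
    have hMpos : 0 < M := by positivity
    have h14 : M * (A.card : ℝ) ≤ 0 := by linarith
    by_contra hcon
    push Not at hcon
    have := mul_pos hMpos hcon
    linarith
  by_contra hcon
  have h15 : v ∈ A := Finset.mem_filter.2 ⟨Finset.mem_univ _, hv, by omega⟩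
  have h16 : 0 < A.card := Finset.card_pos.2 ⟨v, h15⟩
  have h17 : (0 : ℝ) < (A.card : ℝ) := by exact_mod_cast h16
  linarith

/-- Opening an edge `v z` of another path and closing it through the path with ends `y`, `x`. -/
theorem no_insert {t : St V} (ht : Gd G t) {y x v z : V} (hyx : G.Adj y x) (hTy : 1 ≤ t.T y)
    (hTx : 1 ≤ t.T x) (hv : ¬ t.F.Reachable y v) (hvz : t.F.Adj v z) (hyv : G.Adj y v)
    (hxz : G.Adj x z) : False := by
  classical
  have hr := reachable_of_tokens ht hyx hTy hTx
  have hz : ¬ t.F.Reachable y z := fun h => hv (h.trans hvz.symm.reachable)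
  have hnyv : ¬ t.F.Adj y v := fun h => hv h.reachable
  have hyv' : y ≠ v := hyv.ne
  have hyz' : y ≠ z := by rintro rfl; exact hz (Reachable.refl _)
  have hxv' : x ≠ v := by rintro rfl; exact hv hr
  have hxz' : x ≠ z := hxz.ne
  have hac : (mv t.F y v z).IsAcyclic := by
    apply mv_isAcyclic ht.1.1.2.1
    intro h'
    exact hv (h'.mono (SimpleGraph.deleteEdges_le _))
  have hstp : Stp G t ⟨mv t.F y v z, upd t.T y z⟩ :=
    ⟨y, v, z, hTy, hyv, hnyv, hvz, hac, rfl⟩
  have hg := stp_good ht hstp
  have h2y := ht.2 y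
  have h2x := ht.2 x
  have h2z := ht.2 z
  have hdz : dg (mv t.F y v z) z ≤ 1 := by
    have h1 := dg_mv_z (F := t.F) hyv' hyz' hvz
    have h3 : 1 ≤ dg t.F z := Finset.card_pos.2 ⟨v, mem_nb.2 hvz.symm⟩
    omega
  have hdx : dg (mv t.F y v z) x = dg t.F x := dg_mv_other hyv' hyx.ne' hxv' hxz'
  -- `z` and `x` are separated
  have hsep : ¬ (mv t.F y v z).Reachable z x := by
    intro h
    -- `x` is joined to `y` in the new forest
    have h1 : (mv t.F y v z).Reachable y x := by
      obtain ⟨p, hp⟩ := hr.exists_isPath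
      have h3 : ∀ e ∈ p.edges, e ∈ (mv t.F y v z).edgeSet := by
        intro e he
        induction e using Sym2.ind with
        | _ a b =>
          rw [SimpleGraph.mem_edgeSet, mv_adj hyv']
          left
          refine ⟨p.adj_of_mem_edges he, ?_⟩
          intro heq
          have hmem : a ∈ p.support := p.fst_mem_support_of_mem_edges he
          have hmemb : b ∈ p.support := p.snd_mem_support_of_mem_edges he
          have hra : t.F.Reachable y a := (p.takeUntil a hmem).reachable
          have hrb : t.F.Reachable y b := (p.takeUntil b hmemb).reachable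
          rw [Sym2.eq_iff] at heq
          rcases heq with ⟨h4, _⟩ | ⟨_, h4⟩
          · exact hv (h4 ▸ hra)
          · exact hv (h4 ▸ hrb)
      exact (p.transfer _ h3).reachable
    have h5 : (mv t.F y v z).Adj y v := by
      rw [mv_adj hyv']
      exact Or.inr rfl
    have h6 : (mv t.F y v z).Reachable v z := (h5.symm.reachable.trans h1).trans h.symm
    -- but `v z` is a bridge of `F + y v`
    have hH : (t.F ⊔ SimpleGraph.edge y v).IsAcyclic :=
      IsAcyclic.sup_edge_of_not_reachable hv ht.1.1.2.1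
    have hadj : (t.F ⊔ SimpleGraph.edge y v).Adj v z := Or.inl hvz
    have hb := (SimpleGraph.isAcyclic_iff_forall_adj_isBridge.1 hH) hadj
    rw [SimpleGraph.isBridge_iff] at hb
    have h7 : ¬ ((t.F ⊔ SimpleGraph.edge y v).deleteEdges {s(v, z)}).Reachable v z := by
      first
        | exact hb.2
        | exact hb
    apply h7
    refine h6.mono ?_
    intro a b hab
    rw [mv_adj hyv'] at hab
    rw [SimpleGraph.deleteEdges_adj, ad_adj hyv']
    rcases hab with ⟨h8, h9⟩ | h8
    · exact ⟨Or.inl h8, by simpa using h9⟩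
    · refine ⟨Or.inr h8, ?_⟩
      rw [h8]
      simp only [Set.mem_singleton_iff]
      intro h9
      rw [Sym2.eq_iff] at h9
      rcases h9 with ⟨h10, _⟩ | ⟨h10, _⟩
      · exact hyv' h10
      · exact hyz' h10
  have := two_le_of_ext hg.1 hxz.symm hsep hdz
  have h20 : 2 ≤ dg (mv t.F y v z) x := this
  rw [hdx] at h20
  omega

/-- **The case of equality.** If some component of the `d`-regular graph `G` is not complete,
the bound is strict. -/
theorem strict_bound {d : ℕ} (hd : ∀ v, dg G v = d) {a b c : V} (hab : G.Adj a b)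
    (hbc : G.Adj b c) (hne : a ≠ c) (hnac : ¬ G.Adj a c) :
    ∃ F, LF G F ∧ (d + 1) * (2 * Fintype.card V) < (d + 1) * TD F + 2 * Fintype.card V := by
  classical
  obtain ⟨F, hF⟩ := exists_maxF G
  refine ⟨F, hF.1, ?_⟩
  by_contra hcon
  push Not at hcon
  let s : St V := ⟨F, fun v => 2 - dg F v⟩
  have hs : Gd G s := by
    refine ⟨hF, ?_⟩
    intro v
    have := hF.1.2.2 v
    show (2 - dg F v) + dg F v ≤ 2
    omega
  have htot : tot s + TD F = 2 * Fintype.card V := by
    have h1 : tot s = ∑ v, (2 - dg F v) := rfl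
    rw [h1]
    unfold TD
    rw [← Finset.sum_add_distrib, Finset.sum_congr rfl (g := fun _ => 2)]
    · simp [mul_comm]
    · intro v _
      have := hF.1.2.2 v
      omega
  have hd2 : 2 ≤ d := by
    rw [← hd b]
    have h1 : ({a, c} : Finset V) ⊆ nb G b := by
      intro w hw
      rw [Finset.mem_insert, Finset.mem_singleton] at hw
      rcases hw with rfl | rfl
      · exact mem_nb.2 hab.symm
      · exact mem_nb.2 hbc
    have h2 := Finset.card_le_card h1
    rwa [Finset.card_pair hne] at h2
  have hlow : 2 * Fintype.card V ≤ (d + 1) * tot s := by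
    have h1 : (d + 1) * (2 * Fintype.card V) = (d + 1) * tot s + (d + 1) * TD F := by
      rw [← htot, mul_add]
    omega
  have hup := dens_le hd hs
  have hcu : (ps G s).card ≤ Fintype.card V := Finset.card_le_univ _
  have hcard : (ps G s).card = Fintype.card V := by omega
  have huniv : ps G s = Finset.univ := by
    rw [← Finset.card_eq_iff_eq_univ]
    exact hcard
  have heq : (d + 1) * tot s = 2 * Fintype.card V := by omega
  have hb : b ∈ ps G s := by rw [huniv]; exact Finset.mem_univ b
  obtain ⟨s1, hs1, hsy⟩ := mem_ps.1 hb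
  have hR1 : ∀ v, rem s1.T b v ≤ s1.T v := rem_le s1.T b
  by_cases hcase : ∀ r, Rch G ⟨s1.F, rem s1.T b⟩ r → ∀ x, G.Adj b x → r.T x = 0
  · -- case 1
    have hg1 : Gd G ⟨s1.F, rem s1.T b⟩ := sub_good (rch_good hs hs1) hR1
    have h1 := dens_le hd hg1
    have h2 : tot (⟨s1.F, rem s1.T b⟩ : St V) + 1 = tot s := by
      rw [← rch_tot hs1]
      exact sum_rem hsy
    have h3 : Disjoint (nb G b) (ps G ⟨s1.F, rem s1.T b⟩) := by
      rw [Finset.disjoint_left]
      intro x hx hx'
      obtain ⟨r, hr, hrx⟩ := mem_ps.1 hx'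
      have := hcase r hr x (mem_nb.1 hx)
      omega
    have h4 : (nb G b).card + (ps G ⟨s1.F, rem s1.T b⟩).card ≤ Fintype.card V := by
      rw [← Finset.card_union_of_disjoint h3]
      exact Finset.card_le_univ _
    have h5 : (nb G b).card = d := hd b
    have h6 : (d + 1) * tot (⟨s1.F, rem s1.T b⟩ : St V) + (d + 1) = (d + 1) * tot s := by
      rw [← h2]
      ring
    omega
  · -- case 2
    push Not at hcase
    obtain ⟨r, hr, x, hyx, hrx⟩ := hcase
    have ht := rch_unfreeze hs1 hR1 hr
    set t : St V := ⟨r.F, fun v => r.T v + (s1.T v - rem s1.T b v)⟩ with htdef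
    have hty : 1 ≤ t.T b := by
      show 1 ≤ r.T b + (s1.T b - rem s1.T b b)
      unfold rem
      rw [if_pos rfl]
      omega
    have htx : 1 ≤ t.T x := by
      show 1 ≤ r.T x + (s1.T x - rem s1.T b x)
      omega
    have hgt : Gd G t := rch_good hs ht
    have hav := avoid hgt hyx hty htx
    set R := rem (rem t.T b) x with hRdef
    have hR2 : ∀ v, R v ≤ t.T v := fun v => le_trans (rem_le _ _ _) (rem_le _ _ _)
    have hg2 : Gd G ⟨t.F, R⟩ := sub_good hgt hR2
    have htot2 : tot (⟨t.F, R⟩ : St V) + 2 = tot s := by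
      have h1 : 1 ≤ rem t.T b x := by
        unfold rem
        rw [if_neg hyx.ne']
        exact htx
      have h2 : (∑ v, R v) + 1 = ∑ v, rem t.T b v := sum_rem h1
      have h3 : (∑ v, rem t.T b v) + 1 = ∑ v, t.T v := sum_rem hty
      have h4 : tot s = ∑ v, t.T v := by
        rw [← rch_tot ht]
        rfl
      have h5 : tot (⟨t.F, R⟩ : St V) = ∑ v, R v := rfl
      omega
    have hball : ∀ u, t.F.Reachable b u → insert u (nb G u) ⊆ ncomp G t.F b := by
      intro u hu w hw
      rw [Finset.mem_insert] at hw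
      rcases hw with rfl | hw
      · exact mem_ncomp.2 (Or.inl hu)
      · exact mem_ncomp.2 (Or.inr ⟨u, hu, mem_nb.1 hw⟩)
    have hbc' : ∀ u, (insert u (nb G u)).card = d + 1 := by
      intro u
      rw [Finset.card_insert_of_notMem, ← hd u]
      · rfl
      · intro h
        exact G.loopless.irrefl u (mem_nb.1 h)
    have hle1 : d + 1 ≤ (ncomp G t.F b).card := by
      rw [← hbc' b]
      exact Finset.card_le_card (hball b (Reachable.refl _))
    have hle2 : (ncomp G t.F b).card + (ps G ⟨t.F, R⟩).card ≤ Fintype.card V := by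
      rw [← Finset.card_union_of_disjoint hav]
      exact Finset.card_le_univ _
    have hdens := dens_le hd hg2
    have h6 : (d + 1) * tot (⟨t.F, R⟩ : St V) + 2 * (d + 1) = (d + 1) * tot s := by
      rw [← htot2]
      ring
    have hnc : (ncomp G t.F b).card = d + 1 := by omega
    have hX' : (ps G ⟨t.F, R⟩).card + (d + 1) = Fintype.card V := by omega
    have he2 : (d + 1) * tot (⟨t.F, R⟩ : St V) = 2 * (ps G ⟨t.F, R⟩).card := by omega
    have hballeq : ∀ u, t.F.Reachable b u → insert u (nb G u) = ncomp G t.F b := by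
      intro u hu
      apply Finset.eq_of_subset_of_card_le (hball u hu)
      rw [hnc, hbc' u]
    have hcompl : ∀ w, w ∉ ps G ⟨t.F, R⟩ → w ∈ ncomp G t.F b := by
      have h7 : ncomp G t.F b ∪ ps G ⟨t.F, R⟩ = Finset.univ := by
        rw [← Finset.card_eq_iff_eq_univ, Finset.card_union_of_disjoint hav]
        omega
      intro w hw
      have h8 : w ∈ ncomp G t.F b ∪ ps G ⟨t.F, R⟩ := by rw [h7]; exact Finset.mem_univ w
      rcases Finset.mem_union.1 h8 with h9 | h9
      · exact h9
      · exact absurd h9 hw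
    have hrx' : t.F.Reachable b x := reachable_of_tokens hgt hyx hty htx
    -- all vertices of the closed neighbourhood are in the component
    have hall : ∀ v ∈ ncomp G t.F b, t.F.Reachable b v := by
      intro v hv
      by_contra hnr
      have hvb : G.Adj b v := by
        have h7 : v ∈ insert b (nb G b) := by
          rw [hballeq b (Reachable.refl _)]
          exact hv
        rcases Finset.mem_insert.1 h7 with h8 | h8
        · exact absurd (h8 ▸ Reachable.refl _) hnr
        · exact mem_nb.1 h8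
      have h8 := nbr_two hs ht hyx hty htx (Reachable.refl b) hvb hnr
      rw [huniv, Finset.inter_univ] at h8
      have hvX : v ∉ ps G ⟨t.F, R⟩ := Finset.disjoint_left.1 hav hv
      have h9 : (nb t.F v ∩ ps G ⟨t.F, R⟩).card ≤ 1 := no_two hd hg2 he2 hvX
      -- an `F`-neighbour of `v` outside
      have h10 : ∃ z ∈ nb t.F v, z ∉ ps G ⟨t.F, R⟩ := by
        by_contra hcon2
        push Not at hcon2
        have h11 : nb t.F v ∩ ps G ⟨t.F, R⟩ = nb t.F v := Finset.inter_eq_left.2 hcon2
        rw [h11] at h9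
        omega
      obtain ⟨z, hz1, hz2⟩ := h10
      have hvz : t.F.Adj v z := mem_nb.1 hz1
      have hzr : ¬ t.F.Reachable b z := fun h => hnr (h.trans hvz.symm.reachable)
      have hxz : G.Adj x z := by
        have h12 : z ∈ insert x (nb G x) := by
          rw [hballeq x hrx']
          exact hcompl z hz2
        rcases Finset.mem_insert.1 h12 with h13 | h13
        · exact absurd (h13 ▸ hrx') hzr
        · exact mem_nb.1 h13
      exact no_insert hgt hyx hty htx hnr hvz hvb hxz
    have ha : a ∈ ncomp G t.F b := by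
      rw [← hballeq b (Reachable.refl _)]
      exact Finset.mem_insert_of_mem (mem_nb.2 hab.symm)
    have hc : c ∈ ncomp G t.F b := by
      rw [← hballeq b (Reachable.refl _)]
      exact Finset.mem_insert_of_mem (mem_nb.2 hbc)
    have h20 := hballeq a (hall a ha)
    rw [← h20, Finset.mem_insert] at hc
    rcases hc with h21 | h21
    · exact hne h21.symm
    · exact hnac (mem_nb.1 h21)

end Pool.Agent.H46.MW
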