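import Pool.Agent.H46.MW.Bound
import Pool.Agent.H46.MW.Equal

/-!
# Path partitions: the local bound, the bound by the largest degree, regular graphs
-/

set_option autoImplicit false

namespace Pool.Agent.H46.MW

open SimpleGraph Pool.Agent.H16.PC Pool.Agent.H7.MM

/-- The vertex set of `G` is partitioned into the vertex sets of `k` paths of `G`. -/
def PathPartition {V : Type} (G : SimpleGraph V) (k : ℕ) : Prop :=
  ∃ (u v : Fin k → V) (p : ∀ i, G.Walk (u i) (v i)),
    (∀ i, (p i).IsPath) ∧ ∀ x : V, ∃! i, x ∈ (p i).support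

variable {V : Type} [Fintype V] [DecidableEq V] {G : SimpleGraph V}

/-- A linear forest gives a path partition. -/
theorem part_of_forest {F : SimpleGraph V} (hF : LF G F) :
    ∃ k, PathPartition G k ∧ 2 * k + TD F ≤ 2 * Fintype.card V := by
  obtain ⟨hle, hac, h2⟩ := hF
  obtain ⟨k, u, v, p, hp, hx, hk⟩ := exists_cover hac h2
  refine ⟨k, ⟨u, v, fun i => (p i).mapLe hle,
    fun i => (SimpleGraph.Walk.isPath_mapLe hle).2 (hp i), ?_⟩, hk⟩
  intro x
  obtain ⟨i, hi, hi'⟩ := hx x
  refine ⟨i, ?_, ?_⟩
  · show x ∈ ((p i).mapLe hle).support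
    rw [SimpleGraph.Walk.support_mapLe_eq_support]
    exact hi
  · intro j hj
    apply hi'
    have hj' : x ∈ ((p j).mapLe hle).support := hj
    rwa [SimpleGraph.Walk.support_mapLe_eq_support] at hj'

theorem nb_eq [DecidableRel G.Adj] (v : V) : nb G v = G.neighborFinset v := by
  ext w
  rw [mem_nb, SimpleGraph.mem_neighborFinset]

theorem dg_eq [DecidableRel G.Adj] (v : V) : dg G v = G.degree v := by
  unfold dg
  rw [nb_eq, SimpleGraph.card_neighborFinset_eq_degree]

/-- **The local bound.** -/
theorem local_bound [DecidableRel G.Adj] (w : V → ℝ)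
    (h : ∀ (x : V) (B : Finset V), B ⊆ G.neighborFinset x →
      1 - ∑ c ∈ B, (1 : ℝ) / (G.degree c : ℝ) ≤
        w x * ((G.degree x : ℝ) + 1 - (B.card : ℝ))) :
    ∃ k, PathPartition G k ∧ (k : ℝ) ≤ ∑ x, w x := by
  have hpt : ∀ (x : V) (B : Finset V), B ⊆ nb G x →
      2 * (1 - ∑ c ∈ B, (1 : ℝ) / (dg G c : ℝ)) ≤
        (2 * w x) * ((dg G x : ℝ) + 1 - (B.card : ℝ)) := by
    intro x B hB
    rw [nb_eq] at hB
    have h1 := h x B hB
    rw [dg_eq, Finset.sum_congr rfl (fun c _ => by rw [dg_eq c])]
    linarith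
  obtain ⟨F, hF, hb⟩ := main_boundW hpt
  obtain ⟨k, hk, hk2⟩ := part_of_forest hF
  refine ⟨k, hk, ?_⟩
  have hk3 : 2 * (k : ℝ) + (TD F : ℝ) ≤ 2 * (Fintype.card V : ℝ) := by exact_mod_cast hk2
  rw [← Finset.mul_sum] at hb
  linarith

/-- **Largest degree.** -/
theorem maxdeg_bound [DecidableRel G.Adj] (d : ℕ) (hd : 1 ≤ d) (h : ∀ x, G.degree x ≤ d) :
    ∃ k, PathPartition G k ∧
      (k : ℝ) ≤ (Fintype.card V : ℝ) - 2 * (G.edgeFinset.card : ℝ) / d +
        ((Finset.univ.filter (fun x => G.degree x = d)).card : ℝ) / (d + 1) := by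
  classical
  have hd0 : (0 : ℝ) < (d : ℝ) := by exact_mod_cast hd
  have hd1 : (0 : ℝ) < (d : ℝ) + 1 := by positivity
  obtain ⟨k, hk, hk2⟩ := local_bound (G := G)
    (fun x => (1 - (G.degree x : ℝ) / d) + (if G.degree x = d then (1 : ℝ) / (d + 1) else 0)) (by
      intro x B hB
      -- degrees of the vertices of `B` lie between 1 and `d`
      have h1 : (B.card : ℝ) / d ≤ ∑ c ∈ B, (1 : ℝ) / (G.degree c : ℝ) := by
        have h2 : ∀ c ∈ B, (1 : ℝ) / d ≤ (1 : ℝ) / (G.degree c : ℝ) := by
          intro c hc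
          have hc1 : G.Adj x c := (G.mem_neighborFinset x c).1 (hB hc)
          have hc2 : 0 < G.degree c := by
            rw [← SimpleGraph.card_neighborFinset_eq_degree]
            exact Finset.card_pos.2 ⟨x, (G.mem_neighborFinset c x).2 hc1.symm⟩
          have hc3 : (0 : ℝ) < (G.degree c : ℝ) := by exact_mod_cast hc2
          apply one_div_le_one_div_of_le hc3
          exact_mod_cast h c
        calc (B.card : ℝ) / d = ∑ c ∈ B, (1 : ℝ) / d := by
              rw [Finset.sum_const, nsmul_eq_mul]; ring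
          _ ≤ _ := Finset.sum_le_sum h2
      have hbk : B.card ≤ G.degree x := by
        rw [← SimpleGraph.card_neighborFinset_eq_degree]
        exact Finset.card_le_card hB
      have hkd := h x
      refine le_trans (by linarith : _ ≤ 1 - (B.card : ℝ) / d) ?_
      by_cases hx : G.degree x = d
      · rw [if_pos hx, hx, div_self hd0.ne', sub_self, zero_add, one_div_mul_eq_div,
          le_div_iff₀ hd1]
        have hb0 : (0 : ℝ) ≤ (B.card : ℝ) := Nat.cast_nonneg _
        have h3 : (1 - (B.card : ℝ) / d) * ((d : ℝ) + 1) =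
            (d : ℝ) + 1 - (B.card : ℝ) - (B.card : ℝ) / d := by
          field_simp
          ring
        rw [h3]
        have h4 : 0 ≤ (B.card : ℝ) / d := by positivity
        linarith
      · rw [if_neg hx, add_zero]
        obtain ⟨j, hj⟩ := Nat.exists_eq_add_of_le hbk
        obtain ⟨m, hm⟩ := Nat.exists_eq_add_of_le hkd
        have hm1 : 1 ≤ m := by omega
        have e1 : (G.degree x : ℝ) = (B.card : ℝ) + j := by exact_mod_cast hj
        have e2 : (d : ℝ) = (B.card : ℝ) + j + m := by
          have : (d : ℝ) = (G.degree x : ℝ) + m := by exact_mod_cast hm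
          rw [this, e1]
        have h3 : (1 - (G.degree x : ℝ) / d) * ((G.degree x : ℝ) + 1 - (B.card : ℝ)) =
            (m * (j + 1)) / d := by
          rw [e1]
          rw [eq_div_iff hd0.ne']
          have : (1 - ((B.card : ℝ) + j) / d) * d = m := by
            rw [sub_mul, div_mul_cancel₀ _ hd0.ne', e2]
            ring
          calc (1 - ((B.card : ℝ) + j) / d) * ((B.card : ℝ) + j + 1 - (B.card : ℝ)) * d
              = ((1 - ((B.card : ℝ) + j) / d) * d) * (j + 1) := by ring
            _ = m * (j + 1) := by rw [this]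
        have h4 : 1 - (B.card : ℝ) / d = (m + j) / d := by
          rw [eq_div_iff hd0.ne', sub_mul, div_mul_cancel₀ _ hd0.ne', e2]
          ring
        rw [h3, h4]
        apply div_le_div_of_nonneg_right _ hd0.le
        have hm2 : (1 : ℝ) ≤ (m : ℝ) := by exact_mod_cast hm1
        have hj0 : (0 : ℝ) ≤ (j : ℝ) := Nat.cast_nonneg _
        nlinarith)
  refine ⟨k, hk, le_trans hk2 (le_of_eq ?_)⟩
  rw [Finset.sum_add_distrib, Finset.sum_sub_distrib, ← Finset.sum_div, ← Finset.sum_filter,
    Finset.sum_const, Finset.sum_const]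
  have hE : ∑ x, (G.degree x : ℝ) = 2 * (G.edgeFinset.card : ℝ) := by
    exact_mod_cast G.sum_degrees_eq_twice_card_edges
  rw [hE, nsmul_eq_mul, nsmul_eq_mul, mul_one, Finset.card_univ, mul_one_div]

/-- **Regular graphs.** -/
theorem regular_bound [DecidableRel G.Adj] {r : ℕ} (hr : G.IsRegularOfDegree r) :
    ∃ k, PathPartition G k ∧ k * (r + 1) ≤ Fintype.card V := by
  have hdg : ∀ v, dg G v = r := fun v => by rw [dg_eq]; exact hr v
  obtain ⟨F, hF, hb⟩ := main_bound hdg
  obtain ⟨k, hk, hk2⟩ := part_of_forest hF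
  refine ⟨k, hk, ?_⟩
  have h3 : (r + 1) * (2 * k + TD F) ≤ (r + 1) * (2 * Fintype.card V) :=
    Nat.mul_le_mul_left _ hk2
  have h4 : (r + 1) * (2 * k + TD F) = 2 * (k * (r + 1)) + (r + 1) * TD F := by ring
  omega

/-- **The case of equality for regular graphs.** -/
theorem regular_strict [DecidableRel G.Adj] {r : ℕ} (hr : G.IsRegularOfDegree r) :
    (∃ k, PathPartition G k ∧ k * (r + 1) < Fintype.card V) ↔
      ∃ x y z, G.Adj x y ∧ G.Adj y z ∧ x ≠ z ∧ ¬ G.Adj x z := by
  classical
  constructor
  · rintro ⟨k, ⟨u, v, p, hp, hx⟩, hk⟩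
    by_contra hcon
    push Not at hcon
    -- reachable vertices are equal or adjacent
    have htr : ∀ a b, G.Reachable a b → a = b ∨ G.Adj a b := by
      intro a b hab
      rw [SimpleGraph.reachable_iff_reflTransGen] at hab
      induction hab with
      | refl => exact Or.inl rfl
      | @tail b c _ hbc ih =>
        rcases ih with rfl | ih
        · exact Or.inr hbc
        · by_cases hac : a = c
          · exact Or.inl hac
          · exact Or.inr (hcon a b c ih hbc hac)
    have hcov : (Finset.univ : Finset V) ⊆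
        (Finset.univ : Finset (Fin k)).biUnion (fun i => insert (u i) (G.neighborFinset (u i))) := by
      intro x _
      obtain ⟨i, hi, _⟩ := hx x
      rw [Finset.mem_biUnion]
      refine ⟨i, Finset.mem_univ _, ?_⟩
      have h1 : G.Reachable (u i) x := ((p i).takeUntil x hi).reachable
      rcases htr _ _ h1 with h2 | h2
      · rw [← h2]; exact Finset.mem_insert_self _ _
      · exact Finset.mem_insert_of_mem ((G.mem_neighborFinset _ _).2 h2)
    have h3 := Finset.card_le_card hcov
    have h4 : ((Finset.univ : Finset (Fin k)).biUnion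
        (fun i => insert (u i) (G.neighborFinset (u i)))).card ≤ k * (r + 1) := by
      calc _ ≤ ∑ i : Fin k, (insert (u i) (G.neighborFinset (u i))).card :=
            Finset.card_biUnion_le
        _ ≤ ∑ i : Fin k, (r + 1) := by
            apply Finset.sum_le_sum
            intro i _
            refine le_trans (Finset.card_insert_le _ _) ?_
            rw [SimpleGraph.card_neighborFinset_eq_degree, hr (u i)]
        _ = k * (r + 1) := by simp
    rw [Finset.card_univ] at h3
    omega
  · rintro ⟨x, y, z, hxy, hyz, hne, hxz⟩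
    have hdg : ∀ v, dg G v = r := fun v => by rw [dg_eq]; exact hr v
    obtain ⟨F, hF, hb⟩ := strict_bound hdg hxy hyz hne hxz
    obtain ⟨k, hk, hk2⟩ := part_of_forest hF
    refine ⟨k, hk, ?_⟩
    have h3 : (r + 1) * (2 * k + TD F) ≤ (r + 1) * (2 * Fintype.card V) :=
      Nat.mul_le_mul_left _ hk2
    have h4 : (r + 1) * (2 * k + TD F) = 2 * (k * (r + 1)) + (r + 1) * TD F := by ring
    omega

end Pool.Agent.H46.MW
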